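import Pool.Agent.W27.BG.Good

/-! # Bilinear forms `∑ α(u) |∑_{w ∈ W} c(w) χ(u+w)|` for weights `α` of small `ℓ²` norm -/

set_option autoImplicit false

namespace Pool.Agent.TH322.CS

open Finset

/-- weighted power mean inequality -/
theorem wpow {ι : Type*} (s : Finset ι) (α F : ι → ℝ) (hα : ∀ u ∈ s, 0 ≤ α u)
    (hF : ∀ u ∈ s, 0 ≤ F u) (k : ℕ) (hk : 1 ≤ k) :
    (∑ u ∈ s, α u * F u) ^ k ≤ (∑ u ∈ s, α u) ^ (k - 1) * ∑ u ∈ s, α u * F u ^ k := by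
  rcases eq_or_lt_of_le (Finset.sum_nonneg hα) with h0 | h0
  · have h1 : ∀ u ∈ s, α u = 0 := (Finset.sum_eq_zero_iff_of_nonneg hα).1 h0.symm
    have h2 : ∑ u ∈ s, α u * F u = 0 := Finset.sum_eq_zero fun u hu => by rw [h1 u hu, zero_mul]
    have h3 : ∑ u ∈ s, α u * F u ^ k = 0 :=
      Finset.sum_eq_zero fun u hu => by rw [h1 u hu, zero_mul]
    rw [h2, h3, mul_zero, zero_pow (by omega)]
  · set S := ∑ u ∈ s, α u with hS
    have h1 := Real.pow_arith_mean_le_arith_mean_pow s (fun u => α u / S) F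
      (fun u hu => div_nonneg (hα u hu) h0.le)
      (by rw [← Finset.sum_div]; exact div_self h0.ne') hF k
    have e1 : ∑ u ∈ s, α u / S * F u = (∑ u ∈ s, α u * F u) / S := by
      rw [Finset.sum_div]
      exact Finset.sum_congr rfl fun u _ => by ring
    have e2 : ∑ u ∈ s, α u / S * F u ^ k = (∑ u ∈ s, α u * F u ^ k) / S := by
      rw [Finset.sum_div]
      exact Finset.sum_congr rfl fun u _ => by ring
    rw [e1, e2, div_pow, div_le_div_iff₀ (by positivity) h0] at h1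
    have h2 : S ^ k = S ^ (k - 1) * S := by
      rw [← pow_succ]
      congr 1
      omega
    rw [h2] at h1
    have h3 : (∑ u ∈ s, α u * F u) ^ k * S ≤
        (S ^ (k - 1) * ∑ u ∈ s, α u * F u ^ k) * S := by
      refine h1.trans (le_of_eq ?_)
      ring
    exact le_of_mul_le_mul_right h3 h0

/-- Hoelder's inequality in the form used here -/
theorem holder {ι : Type*} (s : Finset ι) (α F : ι → ℝ) (hα : ∀ u ∈ s, 0 ≤ α u)
    (hF : ∀ u ∈ s, 0 ≤ F u) (k : ℕ) (hk : 1 ≤ k) :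
    (∑ u ∈ s, α u * F u) ^ (2 * k) ≤
      (∑ u ∈ s, α u) ^ (2 * (k - 1)) * ((∑ u ∈ s, α u ^ 2) * ∑ u ∈ s, F u ^ (2 * k)) := by
  have h1 := wpow s α F hα hF k hk
  have h0 : 0 ≤ (∑ u ∈ s, α u * F u) ^ k :=
    pow_nonneg (Finset.sum_nonneg fun u hu => mul_nonneg (hα u hu) (hF u hu)) _
  have h2 := pow_le_pow_left₀ h0 h1 2
  have h3 := Finset.sum_mul_sq_le_sq_mul_sq s α (fun u => F u ^ k)
  calc (∑ u ∈ s, α u * F u) ^ (2 * k) = ((∑ u ∈ s, α u * F u) ^ k) ^ 2 := by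
        rw [← pow_mul, mul_comm]
    _ ≤ ((∑ u ∈ s, α u) ^ (k - 1) * ∑ u ∈ s, α u * F u ^ k) ^ 2 := h2
    _ = (∑ u ∈ s, α u) ^ (2 * (k - 1)) * (∑ u ∈ s, α u * F u ^ k) ^ 2 := by
        rw [mul_pow, ← pow_mul, mul_comm (k - 1) 2]
    _ ≤ (∑ u ∈ s, α u) ^ (2 * (k - 1)) * ((∑ u ∈ s, α u ^ 2) * ∑ u ∈ s, (F u ^ k) ^ 2) := by
        refine mul_le_mul_of_nonneg_left h3 ?_
        exact pow_nonneg (Finset.sum_nonneg hα) _
    _ = _ := by
        have e : ∀ u, (F u ^ k) ^ 2 = F u ^ (2 * k) := fun u => by rw [← pow_mul, mul_comm]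
        simp only [e]

/-- The core estimate: if `W` has at least `p^ε` elements and `α ≥ 0` satisfies
`‖α‖₂² ≤ p^(-1/2-η) ‖α‖₁²` then `∑ α(u) |∑_{w ∈ W} c(w) χ(u+w)| ≤ p^(-τ) ‖α‖₁ |W|`. -/
theorem core (ε η : ℝ) (hε : 0 < ε) (hη : 0 < η) :
    ∃ τ : ℝ, 0 < τ ∧ ∃ P : ℕ, ∀ p : ℕ, ∀ _ : Fact p.Prime, P ≤ p →
      ∀ χ : DirichletCharacter ℂ p, χ ≠ 1 → ∀ W : Finset (ZMod p), (p : ℝ) ^ ε ≤ W.card →
        ∀ c : ZMod p → ℂ, (∀ w, ‖c w‖ ≤ 1) → ∀ α : ZMod p → ℝ, (∀ u, 0 ≤ α u) →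
          ∑ u, α u ^ 2 ≤ (p : ℝ) ^ (-(1 / 2) - η) * (∑ u, α u) ^ 2 →
          ∑ u, α u * ‖∑ w ∈ W, c w * χ (u + w)‖ ≤
            (p : ℝ) ^ (-τ) * ((∑ u, α u) * W.card) := by
  set k : ℕ := ⌈1 / ε⌉₊ + 1 with hk
  have hk1 : 1 ≤ k := by omega
  have hkε : 1 / 2 ≤ k * ε := by
    have h1 : 1 / ε ≤ (⌈1 / ε⌉₊ : ℝ) := Nat.le_ceil _
    have h2 : (k : ℝ) = (⌈1 / ε⌉₊ : ℝ) + 1 := by rw [hk]; push_cast; ring
    have h3 : 1 ≤ (⌈1 / ε⌉₊ : ℝ) * ε := by
      calc (1 : ℝ) = 1 / ε * ε := by field_simp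
        _ ≤ _ := mul_le_mul_of_nonneg_right h1 hε.le
    rw [h2]
    nlinarith
  set C : ℝ := (k : ℝ) ^ (2 * k) + 2 * k with hC
  have hC0 : 0 < C := by positivity
  have hkpos : (0 : ℝ) < k := by exact_mod_cast hk1
  refine ⟨η / (4 * k), by positivity, ⌈C ^ (2 / η)⌉₊ + 2, ?_⟩
  intro p _ hp χ hχ W hW c hc α hα hE
  have hpp : p.Prime := Fact.out
  have hp1 : (1 : ℝ) < p := by exact_mod_cast hpp.one_lt
  have hp0 : (0 : ℝ) < p := by linarith
  have hCp : C ≤ (p : ℝ) ^ (η / 2) := by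
    have h1 : C ^ (2 / η) ≤ p := by
      refine (Nat.le_ceil _).trans ?_
      exact_mod_cast (by omega : ⌈C ^ (2 / η)⌉₊ ≤ p)
    have h2 := Real.rpow_le_rpow (by positivity) h1 (by positivity : 0 ≤ η / 2)
    rw [← Real.rpow_mul hC0.le] at h2
    have h3 : 2 / η * (η / 2) = 1 := by field_simp
    rw [h3, Real.rpow_one] at h2
    exact h2
  set n : ℝ := (W.card : ℝ) with hn
  have hn0 : 0 ≤ n := Nat.cast_nonneg _
  set F : ZMod p → ℝ := fun u => ‖∑ w ∈ W, c w * χ (u + w)‖ with hF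
  set S : ℝ := ∑ u, α u with hS
  have hS0 : 0 ≤ S := Finset.sum_nonneg fun u _ => hα u
  have hmom : ∑ u, F u ^ (2 * k) ≤ C * n ^ (2 * k) * Real.sqrt p := by
    have h1 := Pool.Agent.W27.BG.momF_w χ hχ k hk1 W c hc
    refine h1.trans ?_
    have h2 : Real.sqrt p ≤ n ^ k := by
      rw [Real.sqrt_eq_rpow]
      calc (p : ℝ) ^ ((1 : ℝ) / 2) ≤ (p : ℝ) ^ (ε * k) :=
            Real.rpow_le_rpow_of_exponent_le hp1.le (by linarith)
        _ = ((p : ℝ) ^ ε) ^ k := by rw [Real.rpow_mul hp0.le, Real.rpow_natCast]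
        _ ≤ n ^ k := pow_le_pow_left₀ (by positivity) hW k
    have h3 : (n : ℝ) ^ k * p ≤ n ^ (2 * k) * Real.sqrt p := by
      calc n ^ k * p = n ^ k * (Real.sqrt p * Real.sqrt p) := by
            rw [Real.mul_self_sqrt hp0.le]
        _ ≤ n ^ k * (n ^ k * Real.sqrt p) := by
            refine mul_le_mul_of_nonneg_left ?_ (by positivity)
            exact mul_le_mul_of_nonneg_right h2 (Real.sqrt_nonneg _)
        _ = n ^ (2 * k) * Real.sqrt p := by rw [two_mul, pow_add]; ring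
    have h4 : (k : ℝ) ^ (2 * k) * n ^ k * p ≤ (k : ℝ) ^ (2 * k) * (n ^ (2 * k) * Real.sqrt p) := by
      rw [mul_assoc]
      exact mul_le_mul_of_nonneg_left h3 (by positivity)
    rw [hC]
    nlinarith [h4]
  have hH := holder Finset.univ α F (fun u _ => hα u) (fun u _ => norm_nonneg _) k hk1
  have hmain : (∑ u, α u * F u) ^ (2 * k) ≤ ((p : ℝ) ^ (-(η / (4 * k))) * (S * n)) ^ (2 * k) := by
    have e1 : S ^ (2 * (k - 1)) * S ^ 2 = S ^ (2 * k) := by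
      rw [← pow_add]
      congr 1
    have e2 : ((p : ℝ) ^ (-(η / (4 * k)))) ^ (2 * k) = (p : ℝ) ^ (-(η / 2)) := by
      rw [← Real.rpow_natCast, ← Real.rpow_mul hp0.le]
      congr 1
      push_cast
      field_simp
      norm_num
    calc (∑ u, α u * F u) ^ (2 * k) ≤
          S ^ (2 * (k - 1)) * ((∑ u, α u ^ 2) * ∑ u, F u ^ (2 * k)) := hH
      _ ≤ S ^ (2 * (k - 1)) * (((p : ℝ) ^ (-(1 / 2) - η) * S ^ 2) *
            (C * n ^ (2 * k) * Real.sqrt p)) := by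
          refine mul_le_mul_of_nonneg_left ?_ (by positivity)
          exact mul_le_mul hE hmom (Finset.sum_nonneg fun u _ => by positivity) (by positivity)
      _ = (S ^ (2 * (k - 1)) * S ^ 2) * n ^ (2 * k) * C *
            ((p : ℝ) ^ (-(1 / 2) - η) * (p : ℝ) ^ ((1 : ℝ) / 2)) := by
          rw [Real.sqrt_eq_rpow]; ring
      _ = S ^ (2 * k) * n ^ (2 * k) * C * (p : ℝ) ^ (-η) := by
          rw [e1, ← Real.rpow_add hp0]
          congr 2
          ring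
      _ ≤ S ^ (2 * k) * n ^ (2 * k) * (p : ℝ) ^ (η / 2) * (p : ℝ) ^ (-η) := by
          refine mul_le_mul_of_nonneg_right ?_ (by positivity)
          exact mul_le_mul_of_nonneg_left hCp (by positivity)
      _ = S ^ (2 * k) * n ^ (2 * k) * (p : ℝ) ^ (-(η / 2)) := by
          rw [mul_assoc, ← Real.rpow_add hp0]
          congr 2
          ring
      _ = _ := by
          rw [mul_pow, mul_pow, e2]
          ring
  have h2k : 2 * k ≠ 0 := by omega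
  refine le_of_pow_le_pow_left₀ h2k (by positivity) hmain

end Pool.Agent.TH322.CS
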