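import Pool.Agent.TH322.CS.Digits

/-! # Character sums over integers with restricted digits -/

set_option autoImplicit false

namespace Pool.Agent.TH322.CS

open Finset
open scoped Pointwise Combinatorics.Additive

theorem digits (g : ℕ) (hg : 2 ≤ g) (D : Finset (ZMod g)) (hD2 : 2 ≤ D.card) (δ : ℝ)
    (hδ0 : 0 < δ)
    (hδ : Real.log D.card <
      2 * δ * (4 * Real.log D.card - Real.log (Finset.addEnergy D D))) :
    ∃ τ : ℝ, 0 < τ ∧ ∃ P : ℕ, ∀ p : ℕ, ∀ _ : Fact p.Prime, P ≤ p →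
      ∀ χ : DirichletCharacter ℂ p, χ ≠ 1 → ∀ k : ℕ, (∀ a ∈ digitSet D k, a < p) →
        (p : ℝ) ^ δ < (D.card : ℝ) ^ k → ∀ w : ZMod p → ℂ, (∀ b, ‖w b‖ ≤ 1) →
          ‖∑ a ∈ (digitSet D k).image (fun a : ℕ => (a : ZMod p)),
              ∑ b ∈ (digitSet D k).image (fun a : ℕ => (a : ZMod p)), w b * χ (a - b)‖ <
            (((digitSet D k).image (fun a : ℕ => (a : ZMod p))).card : ℝ) ^ (2 - τ) := by
  haveI : NeZero g := ⟨by omega⟩
  classical
  have hD0 : D.Nonempty := card_pos.1 (by omega)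
  set c : ℝ := (D.card : ℝ) with hc
  have hc1 : (1 : ℝ) < c := by
    rw [hc]; exact_mod_cast (by omega : 1 < D.card)
  set L : ℝ := Real.log c with hL
  have hL0 : 0 < L := Real.log_pos hc1
  set E : ℕ := Finset.addEnergy D D with hE
  have hE0 : 0 < E := by
    rw [hE]
    exact Finset.addEnergy_pos hD0 hD0
  set Λ : ℝ := 4 * L - Real.log E with hΛ
  have hΛ0 : 0 < Λ := by
    by_contra hcon
    push Not at hcon
    have : 2 * δ * Λ ≤ 0 := mul_nonpos_of_nonneg_of_nonpos (by positivity) hcon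
    linarith
  set q : ℝ := δ * Λ - L / 2 with hq
  have hq0 : 0 < q := by rw [hq]; linarith
  set θ : ℝ := q / (2 * (Λ + L)) with hθ
  have hθ0 : 0 < θ := by positivity
  have hθq : θ * (2 * (Λ + L)) = q := by
    rw [hθ]; field_simp
  have hθδ : θ < δ / 2 := by
    by_contra hcon
    push Not at hcon
    have h1 : δ / 2 * (2 * (Λ + L)) ≤ q := by
      rw [← hθq]
      exact mul_le_mul_of_nonneg_right hcon (by positivity)
    rw [hq] at h1
    nlinarith [mul_pos hδ0 hL0]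
  obtain ⟨τ, hτ, P, h⟩ := direct_sum θ θ hθ0 hθ0
  set K : ℝ := 2 * L / δ + 2 * (L * Λ) / q with hK
  have hK0 : 0 < K := by positivity
  refine ⟨τ, hτ, P + g + 1 + ⌈Real.exp K⌉₊, ?_⟩
  intro p _ hp χ hχ k hkp hk w hw
  have hpp : p.Prime := Fact.out
  have hp1 : (1 : ℝ) < p := by exact_mod_cast hpp.one_lt
  have hp0 : (0 : ℝ) < p := by linarith
  set ℓ : ℝ := Real.log p with hℓ
  have hℓ0 : 0 < ℓ := Real.log_pos hp1
  have hKℓ : K ≤ ℓ := by
    rw [hℓ, Real.le_log_iff_exp_le hp0]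
    refine (Nat.le_ceil _).trans ?_
    exact_mod_cast (by omega : ⌈Real.exp K⌉₊ ≤ p)
  have hb1 : L ≤ δ / 2 * ℓ := by
    have h1 : 2 * L / δ ≤ ℓ := le_trans (by rw [hK]; linarith [show 0 < 2 * (L * Λ) / q by positivity]) hKℓ
    rw [div_le_iff₀ hδ0] at h1
    linarith
  have hb2 : L * Λ ≤ q / 2 * ℓ := by
    have h1 : 2 * (L * Λ) / q ≤ ℓ := le_trans (by rw [hK]; linarith [show 0 < 2 * L / δ by positivity]) hKℓ
    rw [div_le_iff₀ hq0] at h1
    linarith
  have hkL : δ * ℓ < k * L := by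
    have h1 := Real.log_lt_log (Real.rpow_pos_of_pos hp0 δ) hk
    rw [Real.log_rpow hp0, Real.log_pow] at h1
    exact h1
  set j : ℕ := ⌈θ * ℓ / L⌉₊ with hj
  have hj1 : 1 ≤ j := Nat.ceil_pos.2 (by positivity)
  have hjL1 : θ * ℓ ≤ j * L := by
    have h1 : θ * ℓ / L ≤ j := Nat.le_ceil _
    rwa [div_le_iff₀ hL0] at h1
  have hjL2 : j * L ≤ θ * ℓ + L := by
    have h1 : (j : ℝ) < θ * ℓ / L + 1 := Nat.ceil_lt_add_one (by positivity)
    have h2 := mul_lt_mul_of_pos_right h1 hL0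
    have h3 : (θ * ℓ / L + 1) * L = θ * ℓ + L := by field_simp
    linarith
  have hjk : j ≤ k := by
    have h1 : (j : ℝ) * L < k * L := by
      have h2 : θ * ℓ ≤ δ / 2 * ℓ := mul_le_mul_of_nonneg_right hθδ.le hℓ0.le
      linarith
    have h2 : (j : ℝ) < k := lt_of_mul_lt_mul_right h1 hL0.le
    exact_mod_cast h2.le
  obtain ⟨m, rfl⟩ := Nat.exists_eq_add_of_le hjk
  obtain ⟨h1, h2, h3⟩ := cards p D hD0 j m hkp
  have h4 := high_energy p hg (by omega) D hD0 j m hj1 hkp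
  have hcpow : ∀ n : ℕ, c ^ n = Real.exp (n * L) := by
    intro n
    rw [hL, mul_comm, Real.exp_mul, Real.exp_log (by linarith), Real.rpow_natCast]
  have hX : (p : ℝ) ^ θ ≤ (lowSet p D j).card := by
    rw [h1]
    push_cast
    rw [← hc, hcpow, Real.rpow_def_of_pos hp0]
    exact Real.exp_le_exp.2 (by rw [mul_comm]; exact hjL1)
  have hY : (Finset.addEnergy (highSet p D j m) (highSet p D j m) : ℝ) ≤
      (p : ℝ) ^ (-(1 / 2) - θ) * ((highSet p D j m).card : ℝ) ^ 4 := by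
    refine (Nat.cast_le.2 h4).trans ?_
    rw [h2]
    push_cast
    have hE1 : (0 : ℝ) < E := by exact_mod_cast hE0
    have e1 : (E : ℝ) ^ m = Real.exp (m * Real.log E) := by
      rw [mul_comm, Real.exp_mul, Real.exp_log hE1, Real.rpow_natCast]
    rw [e1, ← hc, hcpow, ← Real.exp_nat_mul, Real.rpow_def_of_pos hp0, ← Real.exp_add]
    refine Real.exp_le_exp.2 ?_
    push_cast at hkL ⊢
    rw [← hℓ]
    have h5 : (1 / 2 + θ) * ℓ ≤ m * Λ := by
      have h6 : (δ - θ) * ℓ - L ≤ m * L := by nlinarith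
      have h7 : ((δ - θ) * ℓ - L) * Λ ≤ m * L * Λ := mul_le_mul_of_nonneg_right h6 hΛ0.le
      have h8 : (1 / 2 + θ) * ℓ * L ≤ ((δ - θ) * ℓ - L) * Λ := by
        have h9 : (δ - θ) * Λ - (1 / 2 + θ) * L = q / 2 := by
          rw [← hθq] at hq
          have : q = δ * Λ - L / 2 := by rw [← hθq]; exact hq
          nlinarith
        nlinarith
      have h9 : (1 / 2 + θ) * ℓ * L ≤ m * Λ * L := by nlinarith
      exact le_of_mul_le_mul_right h9 hL0
    rw [hΛ] at h5
    nlinarith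
  have hXne : (lowSet p D j).Nonempty := by
    rw [← card_pos, h1]
    exact Nat.pos_of_ne_zero (pow_ne_zero _ (by omega))
  have hYne : (highSet p D j m).Nonempty := by
    rw [← card_pos, h2]
    exact Nat.pos_of_ne_zero (pow_ne_zero _ (by omega))
  have h5 := h p inferInstance (by omega) χ hχ (lowSet p D j) (highSet p D j m) hXne hYne hX h3
    hY w hw
  have hAp : lowSet p D j + highSet p D j m =
      (digitSet D (j + m)).image (fun a : ℕ => (a : ZMod p)) := by
    rw [low_add_high]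
    unfold digitSet
    rw [Finset.image_image]
    rfl
  rw [hAp] at h5
  exact h5

end Pool.Agent.TH322.CS
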