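import Pool.Agent.TH322.CS.Dir

/-! # Integers with restricted digits

`D` is a set of residues modulo the base `g`, the digits being their representatives in
`{0, ..., g-1}`. -/

set_option autoImplicit false

namespace Pool.Agent.TH322.CS

open Finset
open scoped Pointwise Combinatorics.Additive

/-- the integer with base `g` digits `d` -/
def val (g : ℕ) {k : ℕ} (d : Fin k → ZMod g) : ℕ := ∑ i, (d i).val * g ^ (i : ℕ)

/-- the digit strings of length `k` -/
def tup {g : ℕ} (D : Finset (ZMod g)) (k : ℕ) : Finset (Fin k → ZMod g) :=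
  Fintype.piFinset fun _ => D

/-- the integers `∑_{i<k} d_i g^i` with all digits `d_i` in `D` -/
def digitSet {g : ℕ} (D : Finset (ZMod g)) (k : ℕ) : Finset ℕ := (tup D k).image (val g)

theorem val_succ (g k : ℕ) (d : Fin (k + 1) → ZMod g) :
    val g d = (d 0).val + g * val g (fun i => d i.succ) := by
  unfold val
  rw [Fin.sum_univ_succ, Finset.mul_sum]
  congr 1
  · simp
  · refine Finset.sum_congr rfl fun i _ => ?_
    rw [Fin.val_succ, pow_succ]
    ring

theorem val_inj (g : ℕ) [NeZero g] (k : ℕ) :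
    ∀ a c : Fin k → ZMod g, val g a = val g c → a = c := by
  have hg : 0 < g := Nat.pos_of_ne_zero (NeZero.ne g)
  induction k with
  | zero => intro a c _; funext i; exact i.elim0
  | succ k ih =>
    intro a c h
    rw [val_succ, val_succ] at h
    have h1 : (a 0).val = (c 0).val := by
      have h3 := congrArg (· % g) h
      simp only [Nat.add_mul_mod_self_left] at h3
      rwa [Nat.mod_eq_of_lt (ZMod.val_lt _), Nat.mod_eq_of_lt (ZMod.val_lt _)] at h3
    have h2 : val g (fun i => a i.succ) = val g (fun i => c i.succ) := by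
      rw [h1] at h
      exact Nat.eq_of_mul_eq_mul_left hg (by omega)
    have h3 := ih _ _ h2
    funext i
    refine Fin.cases (ZMod.val_injective g h1) (fun i => congrFun h3 i) i

theorem tup_card {g : ℕ} (D : Finset (ZMod g)) (k : ℕ) : (tup D k).card = D.card ^ k := by
  unfold tup
  rw [Fintype.card_piFinset]
  simp

theorem val_append (g j m : ℕ) (d : Fin (j + m) → ZMod g) :
    val g d = val g (fun i => d (Fin.castAdd m i)) + g ^ j * val g (fun i => d (Fin.natAdd j i)) := by
  unfold val
  rw [Fin.sum_univ_add, Finset.mul_sum]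
  congr 1
  refine Finset.sum_congr rfl fun i _ => ?_
  rw [Fin.val_natAdd, pow_add]
  ring

/-- low digits -/
def lowSet (p : ℕ) {g : ℕ} (D : Finset (ZMod g)) (j : ℕ) : Finset (ZMod p) :=
  (tup D j).image fun d => ((val g d : ℕ) : ZMod p)

/-- high digits -/
def highSet (p : ℕ) {g : ℕ} (D : Finset (ZMod g)) (j m : ℕ) : Finset (ZMod p) :=
  (tup D m).image fun d => ((g ^ j * val g d : ℕ) : ZMod p)

theorem low_add_high (p : ℕ) {g : ℕ} (D : Finset (ZMod g)) (j m : ℕ) :
    lowSet p D j + highSet p D j m =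
      (tup D (j + m)).image fun d => ((val g d : ℕ) : ZMod p) := by
  ext x
  rw [Finset.mem_add]
  unfold lowSet highSet
  constructor
  · rintro ⟨y, hy, z, hz, rfl⟩
    obtain ⟨d1, hd1, rfl⟩ := mem_image.1 hy
    obtain ⟨d2, hd2, rfl⟩ := mem_image.1 hz
    unfold tup at hd1 hd2
    rw [Fintype.mem_piFinset] at hd1 hd2
    refine mem_image.2 ⟨Fin.append d1 d2, ?_, ?_⟩
    · unfold tup
      rw [Fintype.mem_piFinset]
      intro i
      refine Fin.addCases (fun i => ?_) (fun i => ?_) i
      · rw [Fin.append_left]; exact hd1 i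
      · rw [Fin.append_right]; exact hd2 i
    · rw [val_append]
      simp only [Fin.append_left, Fin.append_right]
      push_cast
      ring
  · intro hx
    obtain ⟨d, hd, rfl⟩ := mem_image.1 hx
    unfold tup at hd
    rw [Fintype.mem_piFinset] at hd
    refine ⟨_, mem_image.2 ⟨fun i => d (Fin.castAdd m i), Fintype.mem_piFinset.2 fun i => hd _, rfl⟩,
      _, mem_image.2 ⟨fun i => d (Fin.natAdd j i), Fintype.mem_piFinset.2 fun i => hd _, rfl⟩, ?_⟩
    rw [val_append g j m d]
    push_cast
    ring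

theorem image_card (p : ℕ) {g : ℕ} [Fact p.Prime] [NeZero g] (D : Finset (ZMod g)) (k : ℕ)
    (hp : ∀ a ∈ digitSet D k, a < p) :
    ((tup D k).image fun d => ((val g d : ℕ) : ZMod p)).card = D.card ^ k := by
  rw [Finset.card_image_of_injOn, tup_card]
  intro a ha c hc h
  have h1 : val g a < p := hp _ (mem_image_of_mem _ ha)
  have h2 : val g c < p := hp _ (mem_image_of_mem _ hc)
  have h3 : ((val g a : ℕ) : ZMod p) = ((val g c : ℕ) : ZMod p) := h
  rw [ZMod.natCast_eq_natCast_iff', Nat.mod_eq_of_lt h1, Nat.mod_eq_of_lt h2] at h3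
  exact val_inj g k a c h3

theorem cards (p : ℕ) {g : ℕ} [Fact p.Prime] [NeZero g] (D : Finset (ZMod g))
    (hD0 : D.Nonempty) (j m : ℕ) (hp : ∀ a ∈ digitSet D (j + m), a < p) :
    (lowSet p D j).card = D.card ^ j ∧ (highSet p D j m).card = D.card ^ m ∧
      (lowSet p D j + highSet p D j m).card =
        (lowSet p D j).card * (highSet p D j m).card := by
  have h0 : 0 < D.card := card_pos.2 hD0
  have h1 : (lowSet p D j).card ≤ D.card ^ j := by
    unfold lowSet
    exact card_image_le.trans (tup_card D j).le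
  have h2 : (highSet p D j m).card ≤ D.card ^ m := by
    unfold highSet
    exact card_image_le.trans (tup_card D m).le
  have h3 : (lowSet p D j + highSet p D j m).card = D.card ^ (j + m) := by
    rw [low_add_high]
    exact image_card p D _ hp
  have h4 := Finset.card_add_le (s := lowSet p D j) (t := highSet p D j m)
  rw [h3, pow_add] at h4
  have h5 : 0 < D.card ^ j := by positivity
  have h6 : 0 < D.card ^ m := by positivity
  have h7 : (lowSet p D j).card = D.card ^ j := by
    refine le_antisymm h1 ?_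
    by_contra h8
    push Not at h8
    have h9 : (lowSet p D j).card * (highSet p D j m).card < D.card ^ j * D.card ^ m :=
      lt_of_le_of_lt (Nat.mul_le_mul_left _ h2) (Nat.mul_lt_mul_of_pos_right h8 h6)
    omega
  have h8 : (highSet p D j m).card = D.card ^ m := by
    refine le_antisymm h2 ?_
    rw [h7] at h4
    exact Nat.le_of_mul_le_mul_left h4 h5
  exact ⟨h7, h8, by rw [h3, h7, h8, pow_add]⟩

/-- quadruples of digits with a prescribed value of `a + c - b - d` modulo `g` -/
theorem quad_le {g : ℕ} [NeZero g] (D : Finset (ZMod g)) (x : ZMod g) :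
    (((D ×ˢ D) ×ˢ (D ×ˢ D)).filter fun t => t.1.1 + t.2.1 - t.1.2 - t.2.2 = x).card ≤
      Finset.addEnergy D D := by
  classical
  set s : ZMod g → ℕ := fun u => ((D ×ˢ D).filter fun t => t.1 + t.2 = u).card with hs
  have h1 : (((D ×ˢ D) ×ˢ (D ×ˢ D)).filter fun t => t.1.1 + t.2.1 - t.1.2 - t.2.2 = x).card =
      ∑ u : ZMod g, s u * s (u - x) := by
    rw [Finset.card_eq_sum_card_fiberwise (f := fun t => t.1.1 + t.2.1) (t := Finset.univ)
      (fun _ _ => Finset.mem_coe.2 (Finset.mem_univ _))]
    refine Finset.sum_congr rfl fun u _ => ?_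
    rw [hs, ← card_product]
    refine Finset.card_nbij' (fun t => ((t.1.1, t.2.1), (t.1.2, t.2.2)))
      (fun t => ((t.1.1, t.2.1), (t.1.2, t.2.2))) ?_ ?_ ?_ ?_
    · intro t ht
      simp only [coe_filter, mem_filter, mem_product, Set.mem_ofPred_eq, coe_product,
        Set.mem_prod] at ht ⊢
      obtain ⟨⟨⟨⟨h2, h3⟩, h4, h5⟩, h6⟩, h7⟩ := ht
      refine ⟨⟨⟨h2, h4⟩, h7⟩, ⟨h3, h5⟩, ?_⟩
      rw [← h7, ← h6]
      ring
    · intro t ht
      simp only [coe_filter, mem_filter, mem_product, Set.mem_ofPred_eq, coe_product,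
        Set.mem_prod] at ht ⊢
      obtain ⟨⟨⟨h2, h4⟩, h7⟩, ⟨h3, h5⟩, h6⟩ := ht
      refine ⟨⟨⟨⟨h2, h3⟩, h4, h5⟩, ?_⟩, h7⟩
      rw [h7, sub_sub, h6]
      ring
    · intro t _
      rfl
    · intro t _
      rfl
  have h2 : Finset.addEnergy D D = ∑ u : ZMod g, s u * s u := by
    have h3 := sum_sq_fiber (D ×ˢ D) (fun t : ZMod g × ZMod g => t.1 + t.2)
    have h4 : Finset.addEnergy D D = (((D ×ˢ D) ×ˢ (D ×ˢ D)).filter
        fun t => t.1.1 + t.1.2 = t.2.1 + t.2.2).card := by
      unfold Finset.addEnergy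
      refine Finset.card_nbij' (fun t => ((t.1.1, t.2.1), (t.1.2, t.2.2)))
        (fun t => ((t.1.1, t.2.1), (t.1.2, t.2.2))) ?_ ?_ ?_ ?_
      · intro t ht
        simp only [coe_filter, mem_product, Set.mem_ofPred_eq] at ht ⊢
        obtain ⟨⟨⟨h2, h3⟩, h4, h5⟩, h6⟩ := ht
        exact ⟨⟨⟨h2, h4⟩, h3, h5⟩, h6⟩
      · intro t ht
        simp only [coe_filter, mem_product, Set.mem_ofPred_eq] at ht ⊢
        obtain ⟨⟨⟨h2, h3⟩, h4, h5⟩, h6⟩ := ht
        exact ⟨⟨⟨h2, h4⟩, h3, h5⟩, h6⟩
      · intro t _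
        rfl
      · intro t _
        rfl
    rw [← h4] at h3
    have h5 : ((Finset.addEnergy D D : ℕ) : ℝ) = ((∑ u : ZMod g, s u * s u : ℕ) : ℝ) := by
      rw [← h3]
      push_cast
      exact Finset.sum_congr rfl fun u _ => by rw [hs]; ring
    exact_mod_cast h5
  have h3 : ∑ u : ZMod g, s (u - x) * s (u - x) = ∑ u : ZMod g, s u * s u :=
    Equiv.sum_comp (Equiv.subRight x) (fun u => s u * s u)
  rw [h1, h2]
  have h4 : ∑ u : ZMod g, 2 * (s u * s (u - x)) ≤
      ∑ u : ZMod g, (s u * s u + s (u - x) * s (u - x)) := by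
    refine Finset.sum_le_sum fun u _ => ?_
    have : (2 * ((s u : ℤ) * s (u - x))) ≤ (s u : ℤ) * s u + s (u - x) * s (u - x) := by
      nlinarith [sq_nonneg ((s u : ℤ) - s (u - x))]
    exact_mod_cast this
  rw [← Finset.mul_sum, Finset.sum_add_distrib, h3] at h4
  omega

/-- quadruples of digit strings with a prescribed value of `a + c - b - d` -/
theorem quad_strings {g : ℕ} [NeZero g] (D : Finset (ZMod g)) (m : ℕ) : ∀ x : ℤ,
    (((tup D m ×ˢ tup D m) ×ˢ (tup D m ×ˢ tup D m)).filter fun q =>
      (val g q.1.1 : ℤ) + val g q.2.1 - val g q.1.2 - val g q.2.2 = x).card ≤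
      (Finset.addEnergy D D) ^ m := by
  classical
  have hg : 0 < g := Nat.pos_of_ne_zero (NeZero.ne g)
  induction m with
  | zero =>
    intro x
    refine (card_le_card (filter_subset _ _)).trans ?_
    rw [card_product, card_product, tup_card]
    simp
  | succ m ih =>
    intro x
    set S := ((tup D (m + 1) ×ˢ tup D (m + 1)) ×ˢ (tup D (m + 1) ×ˢ tup D (m + 1))).filter fun q =>
      (val g q.1.1 : ℤ) + val g q.2.1 - val g q.1.2 - val g q.2.2 = x with hS
    set φ : ((Fin (m + 1) → ZMod g) × (Fin (m + 1) → ZMod g)) ×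
        ((Fin (m + 1) → ZMod g) × (Fin (m + 1) → ZMod g)) → (ZMod g × ZMod g) × (ZMod g × ZMod g) :=
      fun q => ((q.1.1 0, q.1.2 0), (q.2.1 0, q.2.2 0)) with hφ
    have h1 : S.card ≤ (Finset.addEnergy D D) ^ m * (S.image φ).card := by
      refine Finset.card_le_mul_card_image S _ fun t _ => ?_
      set y : ℤ := (x - ((t.1.1.val : ℤ) + t.2.1.val - t.1.2.val - t.2.2.val)) / g with hy
      refine le_trans ?_ (ih y)
      refine Finset.card_le_card_of_injOn (fun q => (((fun i => q.1.1 i.succ), (fun i => q.1.2 i.succ)),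
        ((fun i => q.2.1 i.succ), (fun i => q.2.2 i.succ)))) ?_ ?_
      · intro q hq
        have hq1 := mem_filter.1 (mem_coe.1 hq)
        have hq2 := mem_filter.1 hq1.1
        rw [mem_product, mem_product, mem_product] at hq2
        obtain ⟨⟨⟨ha, hb⟩, hc, hd⟩, h6⟩ := hq2
        unfold tup at ha hb hc hd
        rw [Fintype.mem_piFinset] at ha hb hc hd
        refine mem_coe.2 (mem_filter.2 ⟨?_, ?_⟩)
        · rw [mem_product, mem_product, mem_product]
          unfold tup
          exact ⟨⟨Fintype.mem_piFinset.2 fun i => ha _, Fintype.mem_piFinset.2 fun i => hb _⟩,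
            Fintype.mem_piFinset.2 fun i => hc _, Fintype.mem_piFinset.2 fun i => hd _⟩
        · have h7 : φ q = t := hq1.2
          rw [hφ] at h7
          have e1 : q.1.1 0 = t.1.1 := congrArg (fun z => z.1.1) h7
          have e2 : q.1.2 0 = t.1.2 := congrArg (fun z => z.1.2) h7
          have e3 : q.2.1 0 = t.2.1 := congrArg (fun z => z.2.1) h7
          have e4 : q.2.2 0 = t.2.2 := congrArg (fun z => z.2.2) h7
          rw [val_succ, val_succ, val_succ, val_succ, e1, e2, e3, e4] at h6
          rw [hy]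
          refine (Int.ediv_eq_of_eq_mul_left (by exact_mod_cast hg.ne') ?_).symm
          push_cast at h6
          linear_combination -h6
      · intro q hq q' hq' h
        have h7 : φ q = t := (mem_filter.1 (mem_coe.1 hq)).2
        have h8 : φ q' = t := (mem_filter.1 (mem_coe.1 hq')).2
        rw [← h8] at h7
        rw [hφ] at h7
        simp only [Prod.mk.injEq] at h7 h
        refine Prod.ext (Prod.ext ?_ ?_) (Prod.ext ?_ ?_) <;> funext i <;>
          refine Fin.cases ?_ (fun i => ?_) i
        · exact h7.1.1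
        · exact congrFun h.1.1 i
        · exact h7.1.2
        · exact congrFun h.1.2 i
        · exact h7.2.1
        · exact congrFun h.2.1 i
        · exact h7.2.2
        · exact congrFun h.2.2 i
    have h2 : (S.image φ).card ≤ Finset.addEnergy D D := by
      refine le_trans (card_le_card ?_) (quad_le D (x : ZMod g))
      intro t ht
      obtain ⟨q, hq, rfl⟩ := mem_image.1 ht
      have hq2 := mem_filter.1 hq
      rw [mem_product, mem_product, mem_product] at hq2
      obtain ⟨⟨⟨ha, hb⟩, hc, hd⟩, h6⟩ := hq2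
      unfold tup at ha hb hc hd
      rw [Fintype.mem_piFinset] at ha hb hc hd
      rw [mem_filter, mem_product, mem_product, mem_product]
      refine ⟨⟨⟨ha 0, hb 0⟩, hc 0, hd 0⟩, ?_⟩
      rw [val_succ, val_succ, val_succ, val_succ] at h6
      have h7 := congrArg (fun z : ℤ => (z : ZMod g)) h6
      push_cast at h7
      simp only [ZMod.natCast_zmod_val, CharP.cast_eq_zero, zero_mul, add_zero] at h7
      exact h7
    refine h1.trans ?_
    rw [pow_succ]
    exact Nat.mul_le_mul_left _ h2

/-- the additive energy of the high digits is at most the power of the energy of `D` mod `g` -/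
theorem high_energy (p : ℕ) {g : ℕ} [Fact p.Prime] [NeZero g] (hg : 2 ≤ g) (hgp : g < p)
    (D : Finset (ZMod g)) (hD0 : D.Nonempty) (j m : ℕ) (hj : 1 ≤ j)
    (hp : ∀ a ∈ digitSet D (j + m), a < p) :
    Finset.addEnergy (highSet p D j m) (highSet p D j m) ≤ (Finset.addEnergy D D) ^ m := by
  classical
  have hpp : p.Prime := Fact.out
  obtain ⟨d0, hd0⟩ := hD0
  have hval : ∀ d ∈ tup D m, 2 * val g d < p := by
    intro d hd
    have h1 : Fin.append (fun _ : Fin j => d0) d ∈ tup D (j + m) := by
      unfold tup at hd ⊢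
      rw [Fintype.mem_piFinset] at hd ⊢
      intro i
      refine Fin.addCases (fun i => ?_) (fun i => ?_) i
      · rw [Fin.append_left]; exact hd0
      · rw [Fin.append_right]; exact hd i
    have h2 := hp _ (mem_image_of_mem _ h1)
    rw [val_append] at h2
    simp only [Fin.append_left, Fin.append_right] at h2
    have h3 : 2 * val g d ≤ g ^ j * val g d := by
      refine Nat.mul_le_mul_right _ ?_
      calc 2 ≤ g := hg
        _ = g ^ 1 := (pow_one g).symm
        _ ≤ g ^ j := Nat.pow_le_pow_right (by omega) hj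
    have h4 : g ^ j * val g (fun i => d i) = g ^ j * val g d := rfl
    omega
  refine le_trans ?_ (quad_strings D m 0)
  set T := ((tup D m ×ˢ tup D m) ×ˢ (tup D m ×ˢ tup D m)).filter fun q =>
      (val g q.1.1 : ℤ) + val g q.2.1 - val g q.1.2 - val g q.2.2 = 0 with hT
  set em : (Fin m → ZMod g) → ZMod p := fun d => ((g ^ j * val g d : ℕ) : ZMod p) with hem
  unfold Finset.addEnergy
  refine (card_le_card ?_).trans (card_image_le (s := T)
    (f := fun q => ((em q.1.1, em q.1.2), (em q.2.1, em q.2.2))))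
  intro t ht
  rw [mem_filter, mem_product, mem_product, mem_product] at ht
  obtain ⟨⟨⟨h2, h3⟩, h4, h5⟩, h6⟩ := ht
  obtain ⟨a, ha, ha'⟩ := mem_image.1 h2
  obtain ⟨b, hb, hb'⟩ := mem_image.1 h3
  obtain ⟨c, hc, hc'⟩ := mem_image.1 h4
  obtain ⟨d, hd, hd'⟩ := mem_image.1 h5
  rw [← ha', ← hb', ← hc', ← hd'] at h6
  refine mem_image.2 ⟨((a, b), (c, d)), ?_, ?_⟩
  · rw [hT, mem_filter, mem_product, mem_product, mem_product]
    refine ⟨⟨⟨ha, hb⟩, hc, hd⟩, ?_⟩
    have h7 : ((g ^ j : ℕ) : ZMod p) ≠ 0 := by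
      rw [Ne, ZMod.natCast_eq_zero_iff]
      intro h8
      have h9 := hpp.dvd_of_dvd_pow h8
      have h10 := Nat.le_of_dvd (by omega) h9
      omega
    have h8 : ((val g a + val g c : ℕ) : ZMod p) = ((val g b + val g d : ℕ) : ZMod p) := by
      push_cast at h6 h7 ⊢
      refine mul_left_cancel₀ h7 ?_
      linear_combination h6
    rw [ZMod.natCast_eq_natCast_iff', Nat.mod_eq_of_lt, Nat.mod_eq_of_lt] at h8
    · have h9 : (val g a : ℤ) + val g c = val g b + val g d := by exact_mod_cast h8
      change (val g a : ℤ) + val g c - val g b - val g d = 0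
      linarith
    · have := hval b hb
      have := hval d hd
      omega
    · have := hval a ha
      have := hval c hc
      omega
  · simp only [hem]
    exact Prod.ext (Prod.ext ha' hb') (Prod.ext hc' hd')

end Pool.Agent.TH322.CS
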