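import Pool.Agent.TH322.CS.Tri

/-! # Character sums over direct sums and direct products of sets -/

set_option autoImplicit false

namespace Pool.Agent.TH322.CS

open Finset
open scoped Pointwise Combinatorics.Additive

/-- passing from `p^(-τ)|A|²` to `|A|^(2-τ/2)` -/
theorem to_card (p : ℕ) (hp : 1 < p) (τ : ℝ) (hτ : 0 < τ) (n S : ℝ) (hn : 0 < n) (hnp : n ≤ p)
    (hS : S ≤ (p : ℝ) ^ (-τ) * n ^ 2) : S < n ^ (2 - τ / 2) := by
  have hp1 : (1 : ℝ) < p := by exact_mod_cast hp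
  have hp0 : (0 : ℝ) < p := by linarith
  refine lt_of_le_of_lt hS ?_
  have h1 : n ^ (τ / 2) ≤ (p : ℝ) ^ (τ / 2) := Real.rpow_le_rpow hn.le hnp (by positivity)
  have h2 : (p : ℝ) ^ (τ / 2) < (p : ℝ) ^ τ := Real.rpow_lt_rpow_of_exponent_lt hp1 (by linarith)
  have h3 : (p : ℝ) ^ (-τ) < n ^ (-(τ / 2)) := by
    rw [Real.rpow_neg hp0.le, Real.rpow_neg hn.le]
    exact (inv_lt_inv₀ (by positivity) (by positivity)).2 (lt_of_le_of_lt h1 h2)
  calc (p : ℝ) ^ (-τ) * n ^ 2 < n ^ (-(τ / 2)) * n ^ 2 :=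
        mul_lt_mul_of_pos_right h3 (by positivity)
    _ = n ^ (2 - τ / 2) := by
        rw [show (2 : ℝ) - τ / 2 = -(τ / 2) + 2 by ring, Real.rpow_add hn]
        norm_num

theorem sum_add_direct {p : ℕ} [Fact p.Prime] (X Y : Finset (ZMod p))
    (hXY : (X + Y).card = X.card * Y.card) (F : ZMod p → ℂ) :
    ∑ a ∈ X + Y, F a = ∑ x ∈ X, ∑ y ∈ Y, F (x + y) := by
  have hinj := Finset.card_add_iff.1 hXY
  rw [← Finset.sum_product (f := fun t : ZMod p × ZMod p => F (t.1 + t.2)),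
    ← Finset.image_add_product, Finset.sum_image]
  intro t ht t' ht' h
  exact hinj (by simpa using ht) (by simpa using ht') h

theorem sum_mul_direct {p : ℕ} [Fact p.Prime] (X Y : Finset (ZMod p))
    (hXY : (X * Y).card = X.card * Y.card) (F : ZMod p → ℂ) :
    ∑ a ∈ X * Y, F a = ∑ x ∈ X, ∑ y ∈ Y, F (x * y) := by
  have hinj := Finset.card_mul_iff.1 hXY
  rw [← Finset.sum_product (f := fun t : ZMod p × ZMod p => F (t.1 * t.2)),
    ← Finset.image_mul_product, Finset.sum_image]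
  intro t ht t' ht' h
  exact hinj (by simpa using ht) (by simpa using ht') h

/-- Power saving over direct sums `A = X + Y`, `|X| ≥ p^ε`, `Y` of small additive energy. -/
theorem direct_sum (ε η : ℝ) (hε : 0 < ε) (hη : 0 < η) :
    ∃ τ : ℝ, 0 < τ ∧ ∃ P : ℕ, ∀ p : ℕ, ∀ _ : Fact p.Prime, P ≤ p →
      ∀ χ : DirichletCharacter ℂ p, χ ≠ 1 → ∀ X Y : Finset (ZMod p), X.Nonempty → Y.Nonempty →
        (p : ℝ) ^ ε ≤ X.card → (X + Y).card = X.card * Y.card →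
        (Finset.addEnergy Y Y : ℝ) ≤ (p : ℝ) ^ (-(1 / 2) - η) * (Y.card : ℝ) ^ 4 →
        ∀ g : ZMod p → ℂ, (∀ b, ‖g b‖ ≤ 1) →
          ‖∑ a ∈ X + Y, ∑ b ∈ X + Y, g b * χ (a - b)‖ < ((X + Y).card : ℝ) ^ (2 - τ) := by
  obtain ⟨τ, hτ, P, h⟩ := tri_add ε η hε hη
  refine ⟨τ / 2, by positivity, P, ?_⟩
  intro p _ hp χ hχ X Y hX0 hY0 hX hXY hE g hg
  have hpp : p.Prime := Fact.out
  have hn : 0 < ((X + Y).card : ℝ) := by
    exact_mod_cast Finset.card_pos.2 (hX0.add hY0)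
  refine to_card p hpp.one_lt τ hτ _ _ hn ?_ ?_
  · have := Finset.card_le_univ (X + Y)
    rw [ZMod.card] at this
    exact_mod_cast this
  · have h1 : ∑ a ∈ X + Y, ∑ b ∈ X + Y, g b * χ (a - b) =
        ∑ z ∈ X, ∑ x ∈ X, ∑ y ∈ Y, ∑ b ∈ Y, 1 * g (z + b) * χ (x + y - (z + b)) := by
      rw [Finset.sum_comm]
      rw [sum_add_direct X Y hXY (fun b => ∑ a ∈ X + Y, g b * χ (a - b))]
      refine Finset.sum_congr rfl fun z _ => ?_
      rw [Finset.sum_congr rfl (fun b _ => sum_add_direct X Y hXY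
        (fun a => g (z + b) * χ (a - (z + b))))]
      rw [Finset.sum_comm]
      refine Finset.sum_congr rfl fun x _ => ?_
      rw [Finset.sum_comm]
      refine Finset.sum_congr rfl fun y _ => Finset.sum_congr rfl fun b _ => ?_
      rw [one_mul]
    rw [h1]
    refine (norm_sum_le _ _).trans ?_
    have h2 : ∀ z ∈ X, ‖∑ x ∈ X, ∑ y ∈ Y, ∑ b ∈ Y, 1 * g (z + b) * χ (x + y - (z + b))‖ ≤
        (p : ℝ) ^ (-τ) * ((X.card : ℝ) * Y.card * Y.card) := by
      intro z _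
      refine h p inferInstance hp χ hχ X Y Y hX ?_ z (fun _ => 1) (fun _ b => g (z + b))
        (fun _ => by simp) (fun _ _ => hg _)
      refine hE.trans (le_of_eq ?_)
      ring
    refine (Finset.sum_le_card_nsmul _ _ _ h2).trans (le_of_eq ?_)
    rw [nsmul_eq_mul, hXY]
    push_cast
    ring

/-- Power saving over direct products `A = X · Y`, `|X| ≥ p^ε`, `Y` of small multiplicative
energy. -/
theorem direct_prod (ε η : ℝ) (hε : 0 < ε) (hη : 0 < η) :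
    ∃ τ : ℝ, 0 < τ ∧ ∃ P : ℕ, ∀ p : ℕ, ∀ _ : Fact p.Prime, P ≤ p →
      ∀ χ : DirichletCharacter ℂ p, χ ≠ 1 → ∀ X Y : Finset (ZMod p), X.Nonempty → Y.Nonempty →
        (0 : ZMod p) ∉ X → (0 : ZMod p) ∉ Y →
        (p : ℝ) ^ ε ≤ X.card → (X * Y).card = X.card * Y.card →
        (Finset.mulEnergy Y Y : ℝ) ≤ (p : ℝ) ^ (-(1 / 2) - η) * (Y.card : ℝ) ^ 4 →
        ∀ g : ZMod p → ℂ, (∀ b, ‖g b‖ ≤ 1) →
          ‖∑ a ∈ X * Y, ∑ b ∈ X * Y, g b * χ (a - b)‖ < ((X * Y).card : ℝ) ^ (2 - τ) := by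
  obtain ⟨τ, hτ, P, h⟩ := tri_mul ε η hε hη
  refine ⟨τ / 2, by positivity, P, ?_⟩
  intro p _ hp χ hχ X Y hX0 hY0 hX00 hY00 hX hXY hE g hg
  have hpp : p.Prime := Fact.out
  have hn : 0 < ((X * Y).card : ℝ) := by
    exact_mod_cast Finset.card_pos.2 (hX0.mul hY0)
  refine to_card p hpp.one_lt τ hτ _ _ hn ?_ ?_
  · have := Finset.card_le_univ (X * Y)
    rw [ZMod.card] at this
    exact_mod_cast this
  · have h1 : ∑ a ∈ X * Y, ∑ b ∈ X * Y, g b * χ (a - b) =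
        ∑ z ∈ X, ∑ x ∈ X, ∑ y ∈ Y, ∑ b ∈ Y, 1 * g (z * b) * χ (x * y - z * b) := by
      rw [Finset.sum_comm]
      rw [sum_mul_direct X Y hXY (fun b => ∑ a ∈ X * Y, g b * χ (a - b))]
      refine Finset.sum_congr rfl fun z _ => ?_
      rw [Finset.sum_congr rfl (fun b _ => sum_mul_direct X Y hXY
        (fun a => g (z * b) * χ (a - z * b)))]
      rw [Finset.sum_comm]
      refine Finset.sum_congr rfl fun x _ => ?_
      rw [Finset.sum_comm]
      refine Finset.sum_congr rfl fun y _ => Finset.sum_congr rfl fun b _ => ?_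
      rw [one_mul]
    rw [h1]
    refine (norm_sum_le _ _).trans ?_
    have h2 : ∀ z ∈ X, ‖∑ x ∈ X, ∑ y ∈ Y, ∑ b ∈ Y, 1 * g (z * b) * χ (x * y - z * b)‖ ≤
        (p : ℝ) ^ (-τ) * ((X.card : ℝ) * Y.card * Y.card) := by
      intro z hz
      refine h p inferInstance hp χ hχ X Y Y hY00 hX ?_ z (fun h0 => hX00 (h0 ▸ hz))
        (fun _ => 1) (fun _ b => g (z * b)) (fun _ => by simp) (fun _ _ => hg _)
      refine hE.trans (le_of_eq ?_)
      ring
    refine (Finset.sum_le_card_nsmul _ _ _ h2).trans (le_of_eq ?_)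
    rw [nsmul_eq_mul, hXY]
    push_cast
    ring

end Pool.Agent.TH322.CS
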