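import Pool.Agent.TH322.CS.Digits

/-! # Powers `θ^a` whose exponents have restricted digits -/

set_option autoImplicit false

namespace Pool.Agent.TH322.CS

open Finset
open scoped Pointwise Combinatorics.Additive

/-- choice of the parameters -/
theorem param (L lE δ : ℝ) (hL0 : 0 < L) (hδ0 : 0 < δ) (hδ : L < 2 * δ * (4 * L - lE)) :
    ∃ θ : ℝ, 0 < θ ∧ ∃ K : ℝ, 0 < K ∧ ∀ (ℓ : ℝ), K ≤ ℓ → ∀ k : ℕ, δ * ℓ < k * L →
      ∃ j m : ℕ, k = j + m ∧ 1 ≤ j ∧ θ * ℓ ≤ j * L ∧
        Real.log 3 + m * lE ≤ (-(1 / 2) - θ) * ℓ + 4 * (m * L) := by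
  set Λ : ℝ := 4 * L - lE with hΛ
  have hΛ0 : 0 < Λ := by
    by_contra hcon
    push Not at hcon
    have : 2 * δ * Λ ≤ 0 := mul_nonpos_of_nonneg_of_nonpos (by positivity) hcon
    linarith
  set q : ℝ := δ * Λ - L / 2 with hq
  have hq0 : 0 < q := by rw [hq]; linarith
  set θ : ℝ := q / (2 * (Λ + L)) with hθ
  have hθ0 : 0 < θ := by positivity
  have hθq : θ * (2 * (Λ + L)) = q := by
    rw [hθ]; field_simp
  have hθδ : θ < δ / 2 := by
    by_contra hcon
    push Not at hcon
    have h1 : δ / 2 * (2 * (Λ + L)) ≤ q := by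
      rw [← hθq]
      exact mul_le_mul_of_nonneg_right hcon (by positivity)
    rw [hq] at h1
    linarith [mul_pos hδ0 hL0]
  have h30 : 0 < Real.log 3 := Real.log_pos (by norm_num)
  set K : ℝ := 2 * L / δ + 2 * (L * Λ + L * Real.log 3) / q with hK
  have hK0 : 0 < K := by positivity
  refine ⟨θ, hθ0, K, hK0, ?_⟩
  intro ℓ hKℓ k hkL
  have hℓ0 : 0 < ℓ := lt_of_lt_of_le hK0 hKℓ
  have hb1 : L ≤ δ / 2 * ℓ := by
    have h0 : 0 < 2 * (L * Λ + L * Real.log 3) / q := by positivity
    have h1 : 2 * L / δ ≤ ℓ := le_trans (by rw [hK]; linarith) hKℓ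
    rw [div_le_iff₀ hδ0] at h1
    linarith
  have hb2 : L * Λ + L * Real.log 3 ≤ q / 2 * ℓ := by
    have h0 : 0 < 2 * L / δ := by positivity
    have h1 : 2 * (L * Λ + L * Real.log 3) / q ≤ ℓ := le_trans (by rw [hK]; linarith) hKℓ
    rw [div_le_iff₀ hq0] at h1
    linarith
  set j : ℕ := ⌈θ * ℓ / L⌉₊ with hj
  have hj1 : 1 ≤ j := Nat.ceil_pos.2 (by positivity)
  have hjL1 : θ * ℓ ≤ j * L := by
    have h1 : θ * ℓ / L ≤ j := Nat.le_ceil _
    rwa [div_le_iff₀ hL0] at h1
  have hjL2 : j * L ≤ θ * ℓ + L := by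
    have h1 : (j : ℝ) < θ * ℓ / L + 1 := Nat.ceil_lt_add_one (by positivity)
    have h2 := mul_lt_mul_of_pos_right h1 hL0
    have h3 : (θ * ℓ / L + 1) * L = θ * ℓ + L := by field_simp
    linarith
  have hjk : j ≤ k := by
    have h1 : (j : ℝ) * L < k * L := by
      have h2 : θ * ℓ ≤ δ / 2 * ℓ := mul_le_mul_of_nonneg_right hθδ.le hℓ0.le
      linarith
    have h2 : (j : ℝ) < k := lt_of_mul_lt_mul_right h1 hL0.le
    exact_mod_cast h2.le
  obtain ⟨m, rfl⟩ := Nat.exists_eq_add_of_le hjk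
  refine ⟨j, m, rfl, hj1, hjL1, ?_⟩
  push_cast at hkL
  have h6 : (δ - θ) * ℓ - L ≤ m * L := by linarith
  have h7 : ((δ - θ) * ℓ - L) * Λ ≤ m * L * Λ := mul_le_mul_of_nonneg_right h6 hΛ0.le
  have h9 : (δ - θ) * Λ - (1 / 2 + θ) * L = q / 2 := by
    have h10 : θ * (2 * (Λ + L)) = δ * Λ - L / 2 := by rw [hθq]
    rw [hq, ← h10] at *
    linarith
  have h8 : ((1 / 2 + θ) * ℓ + Real.log 3) * L ≤ ((δ - θ) * ℓ - L) * Λ := by
    have h10 : ((δ - θ) * ℓ - L) * Λ - (1 / 2 + θ) * ℓ * L =
        ((δ - θ) * Λ - (1 / 2 + θ) * L) * ℓ - L * Λ := by ring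
    rw [h9] at h10
    linarith
  have h11 : ((1 / 2 + θ) * ℓ + Real.log 3) * L ≤ (m * Λ) * L := by linarith
  have h12 := le_of_mul_le_mul_right h11 hL0
  have h13 : m * Λ = 4 * (m * L) - m * lE := by rw [hΛ]; ring
  rw [h13] at h12
  linarith

/-- low digits in the exponent -/
def lowPow {p : ℕ} (θ : ZMod p) {g : ℕ} (D : Finset (ZMod g)) (j : ℕ) : Finset (ZMod p) :=
  (tup D j).image fun d => θ ^ val g d

/-- high digits in the exponent -/
def highPow {p : ℕ} (θ : ZMod p) {g : ℕ} (D : Finset (ZMod g)) (j m : ℕ) : Finset (ZMod p) :=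
  (tup D m).image fun d => θ ^ (g ^ j * val g d)

theorem low_mul_high {p : ℕ} (θ : ZMod p) {g : ℕ} (D : Finset (ZMod g)) (j m : ℕ) :
    lowPow θ D j * highPow θ D j m = (tup D (j + m)).image fun d => θ ^ val g d := by
  ext x
  rw [Finset.mem_mul]
  unfold lowPow highPow
  constructor
  · rintro ⟨y, hy, z, hz, rfl⟩
    obtain ⟨d1, hd1, rfl⟩ := mem_image.1 hy
    obtain ⟨d2, hd2, rfl⟩ := mem_image.1 hz
    unfold tup at hd1 hd2
    rw [Fintype.mem_piFinset] at hd1 hd2
    refine mem_image.2 ⟨Fin.append d1 d2, ?_, ?_⟩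
    · unfold tup
      rw [Fintype.mem_piFinset]
      intro i
      refine Fin.addCases (fun i => ?_) (fun i => ?_) i
      · rw [Fin.append_left]; exact hd1 i
      · rw [Fin.append_right]; exact hd2 i
    · rw [val_append]
      simp only [Fin.append_left, Fin.append_right]
      rw [pow_add]
  · intro hx
    obtain ⟨d, hd, rfl⟩ := mem_image.1 hx
    unfold tup at hd
    rw [Fintype.mem_piFinset] at hd
    refine ⟨_, mem_image.2 ⟨fun i => d (Fin.castAdd m i), Fintype.mem_piFinset.2 fun i => hd _, rfl⟩,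
      _, mem_image.2 ⟨fun i => d (Fin.natAdd j i), Fintype.mem_piFinset.2 fun i => hd _, rfl⟩, ?_⟩
    rw [val_append g j m d, pow_add]

theorem image_card_pow {p : ℕ} [Fact p.Prime] (θ : ZMod p) {g : ℕ} [NeZero g] (D : Finset (ZMod g))
    (k : ℕ) (hp : ∀ a ∈ digitSet D k, a < orderOf θ) :
    ((tup D k).image fun d => θ ^ val g d).card = D.card ^ k := by
  rw [Finset.card_image_of_injOn, tup_card]
  intro a ha c hc h
  have h1 : val g a < orderOf θ := hp _ (mem_image_of_mem _ ha)
  have h2 : val g c < orderOf θ := hp _ (mem_image_of_mem _ hc)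
  have h3 : θ ^ val g a = θ ^ val g c := h
  exact val_inj g k a c (pow_injOn_Iio_orderOf (Set.mem_Iio.2 h1) (Set.mem_Iio.2 h2) h3)

theorem cards_pow {p : ℕ} [Fact p.Prime] (θ : ZMod p) {g : ℕ} [NeZero g] (D : Finset (ZMod g))
    (hD0 : D.Nonempty) (j m : ℕ) (hp : ∀ a ∈ digitSet D (j + m), a < orderOf θ) :
    (lowPow θ D j).card = D.card ^ j ∧ (highPow θ D j m).card = D.card ^ m ∧
      (lowPow θ D j * highPow θ D j m).card =
        (lowPow θ D j).card * (highPow θ D j m).card := by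
  have h0 : 0 < D.card := card_pos.2 hD0
  have h1 : (lowPow θ D j).card ≤ D.card ^ j := by
    unfold lowPow
    exact card_image_le.trans (tup_card D j).le
  have h2 : (highPow θ D j m).card ≤ D.card ^ m := by
    unfold highPow
    exact card_image_le.trans (tup_card D m).le
  have h3 : (lowPow θ D j * highPow θ D j m).card = D.card ^ (j + m) := by
    rw [low_mul_high]
    exact image_card_pow θ D _ hp
  have h4 := Finset.card_mul_le (s := lowPow θ D j) (t := highPow θ D j m)
  rw [h3, pow_add] at h4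
  have h5 : 0 < D.card ^ j := by positivity
  have h6 : 0 < D.card ^ m := by positivity
  have h7 : (lowPow θ D j).card = D.card ^ j := by
    refine le_antisymm h1 ?_
    by_contra h8
    push Not at h8
    have h9 : (lowPow θ D j).card * (highPow θ D j m).card < D.card ^ j * D.card ^ m :=
      lt_of_le_of_lt (Nat.mul_le_mul_left _ h2) (Nat.mul_lt_mul_of_pos_right h8 h6)
    omega
  have h8 : (highPow θ D j m).card = D.card ^ m := by
    refine le_antisymm h2 ?_
    rw [h7] at h4
    exact Nat.le_of_mul_le_mul_left h4 h5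
  exact ⟨h7, h8, by rw [h3, h7, h8, pow_add]⟩

/-- the multiplicative energy of the high part -/
theorem high_energy_pow {p : ℕ} [Fact p.Prime] (θ : ZMod p) {g : ℕ} [NeZero g]
    (D : Finset (ZMod g)) (hD0 : D.Nonempty) (j m : ℕ)
    (hp : ∀ a ∈ digitSet D (j + m), a < orderOf θ) :
    Finset.mulEnergy (highPow θ D j m) (highPow θ D j m) ≤ 3 * (Finset.addEnergy D D) ^ m := by
  classical
  have hg : 0 < g := Nat.pos_of_ne_zero (NeZero.ne g)
  obtain ⟨d0, hd0⟩ := hD0
  set t : ℕ := orderOf θ with ht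
  have hval : ∀ d ∈ tup D m, g ^ j * val g d < t := by
    intro d hd
    have h1 : Fin.append (fun _ : Fin j => d0) d ∈ tup D (j + m) := by
      unfold tup at hd ⊢
      rw [Fintype.mem_piFinset] at hd ⊢
      intro i
      refine Fin.addCases (fun i => ?_) (fun i => ?_) i
      · rw [Fin.append_left]; exact hd0
      · rw [Fin.append_right]; exact hd i
    have h2 := hp _ (mem_image_of_mem _ h1)
    rw [val_append] at h2
    simp only [Fin.append_left, Fin.append_right] at h2
    have h4 : g ^ j * val g (fun i => d i) = g ^ j * val g d := rfl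
    omega
  set G : ℤ := (g : ℤ) ^ j with hG
  have hG0 : 0 < G := by positivity
  set T : ℤ → Finset (((Fin m → ZMod g) × (Fin m → ZMod g)) × ((Fin m → ZMod g) × (Fin m → ZMod g))) :=
    fun x => ((tup D m ×ˢ tup D m) ×ˢ (tup D m ×ˢ tup D m)).filter fun q =>
      (val g q.1.1 : ℤ) + val g q.2.1 - val g q.1.2 - val g q.2.2 = x with hT
  have hTc : ∀ x, (T x).card ≤ (Finset.addEnergy D D) ^ m := fun x => quad_strings D m x
  set U := T 0 ∪ T (t / G) ∪ T (-(t / G)) with hU
  have hUc : U.card ≤ 3 * (Finset.addEnergy D D) ^ m := by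
    refine (card_union_le _ _).trans ?_
    have h1 := card_union_le (T 0) (T (t / G))
    have h2 := hTc 0
    have h3 := hTc (t / G)
    have h4 := hTc (-(t / G))
    omega
  refine le_trans ?_ hUc
  set em : (Fin m → ZMod g) → ZMod p := fun d => θ ^ (g ^ j * val g d) with hem
  unfold Finset.mulEnergy
  refine (card_le_card ?_).trans (card_image_le (s := U)
    (f := fun q => ((em q.1.1, em q.1.2), (em q.2.1, em q.2.2))))
  intro z hz
  rw [mem_filter, mem_product, mem_product, mem_product] at hz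
  obtain ⟨⟨⟨h2, h3⟩, h4, h5⟩, h6⟩ := hz
  obtain ⟨a, ha, ha'⟩ := mem_image.1 h2
  obtain ⟨b, hb, hb'⟩ := mem_image.1 h3
  obtain ⟨c, hc, hc'⟩ := mem_image.1 h4
  obtain ⟨d, hd, hd'⟩ := mem_image.1 h5
  rw [← ha', ← hb', ← hc', ← hd'] at h6
  refine mem_image.2 ⟨((a, b), (c, d)), ?_, ?_⟩
  · have hva := hval a ha
    have hvb := hval b hb
    have hvc := hval c hc
    have hvd := hval d hd
    have ht0 : 0 < t := by omega
    have h7 : g ^ j * val g a + g ^ j * val g c ≡ g ^ j * val g b + g ^ j * val g d [MOD t] := by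
      have h8 : θ ^ (g ^ j * val g a + g ^ j * val g c) =
          θ ^ (g ^ j * val g b + g ^ j * val g d) := by
        rw [pow_add, pow_add]
        exact h6
      have hθ : θ ≠ 0 := by
        rintro rfl
        have h9 : orderOf (0 : ZMod p) = 0 := by
          rw [orderOf_eq_zero_iff']
          intro n hn
          rw [zero_pow (by omega)]
          exact zero_ne_one
        omega
      set u : (ZMod p)ˣ := Units.mk0 θ hθ with hu
      have h9 : u ^ (g ^ j * val g a + g ^ j * val g c) =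
          u ^ (g ^ j * val g b + g ^ j * val g d) := by
        apply Units.ext
        rw [Units.val_pow_eq_pow_val, Units.val_pow_eq_pow_val, hu, Units.val_mk0]
        exact h8
      have h10 := pow_eq_pow_iff_modEq.1 h9
      rw [← orderOf_units, hu, Units.val_mk0] at h10
      exact h10
    have h8 : (t : ℤ) ∣ G * ((val g a : ℤ) + val g c - val g b - val g d) := by
      have h9 := (Nat.modEq_iff_dvd.1 h7.symm)
      push_cast at h9
      rw [hG]
      convert! h9 using 1
      ring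
    have h10 : G * ((val g a : ℤ) + val g c - val g b - val g d) = 0 ∨
        G * ((val g a : ℤ) + val g c - val g b - val g d) = t ∨
        G * ((val g a : ℤ) + val g c - val g b - val g d) = -t := by
      obtain ⟨r, hr⟩ := h8
      have e1 : G * (val g a : ℤ) < t := by rw [hG]; exact_mod_cast hva
      have e2 : G * (val g b : ℤ) < t := by rw [hG]; exact_mod_cast hvb
      have e3 : G * (val g c : ℤ) < t := by rw [hG]; exact_mod_cast hvc
      have e4 : G * (val g d : ℤ) < t := by rw [hG]; exact_mod_cast hvd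
      have f1 : 0 ≤ G * (val g a : ℤ) := by positivity
      have f2 : 0 ≤ G * (val g b : ℤ) := by positivity
      have f3 : 0 ≤ G * (val g c : ℤ) := by positivity
      have f4 : 0 ≤ G * (val g d : ℤ) := by positivity
      have e5 : (t : ℤ) * r < t * 2 := by rw [← hr]; linarith
      have e6 : (t : ℤ) * (-2) < t * r := by rw [← hr]; linarith
      have e7 : (0 : ℤ) < t := by exact_mod_cast ht0
      have e8 : r < 2 := lt_of_mul_lt_mul_left e5 e7.le
      have e9 : -2 < r := lt_of_mul_lt_mul_left e6 e7.le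
      rw [hr]
      have e10 : r = 0 ∨ r = 1 ∨ r = -1 := by omega
      rcases e10 with h | h | h <;> rw [h]
      · left; ring
      · right; left; ring
      · right; right; ring
    have hmem : ((a, b), (c, d)) ∈ (tup D m ×ˢ tup D m) ×ˢ (tup D m ×ˢ tup D m) := by
      rw [mem_product, mem_product, mem_product]
      exact ⟨⟨ha, hb⟩, hc, hd⟩
    rw [hU, mem_union, mem_union]
    rcases h10 with h | h | h
    · left; left
      rw [hT]
      refine mem_filter.2 ⟨hmem, ?_⟩
      exact (mul_eq_zero.1 h).resolve_left hG0.ne'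
    · left; right
      rw [hT]
      refine mem_filter.2 ⟨hmem, ?_⟩
      exact (Int.ediv_eq_of_eq_mul_right hG0.ne' h.symm).symm
    · right
      rw [hT]
      refine mem_filter.2 ⟨hmem, ?_⟩
      have h11 : (t : ℤ) / G = -((val g a : ℤ) + val g c - val g b - val g d) :=
        Int.ediv_eq_of_eq_mul_right hG0.ne' (by linarith)
      change (val g a : ℤ) + val g c - val g b - val g d = -((t : ℤ) / G)
      rw [h11]
      ring
  · simp only [hem]
    exact Prod.ext (Prod.ext ha' hb') (Prod.ext hc' hd')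

theorem powers (g : ℕ) (hg : 2 ≤ g) (D : Finset (ZMod g)) (hD2 : 2 ≤ D.card) (δ : ℝ)
    (hδ0 : 0 < δ)
    (hδ : Real.log D.card <
      2 * δ * (4 * Real.log D.card - Real.log (Finset.addEnergy D D))) :
    ∃ τ : ℝ, 0 < τ ∧ ∃ P : ℕ, ∀ p : ℕ, ∀ _ : Fact p.Prime, P ≤ p →
      ∀ χ : DirichletCharacter ℂ p, χ ≠ 1 → ∀ (θ : ZMod p) (k : ℕ),
        (∀ a ∈ digitSet D k, a < orderOf θ) →
        (p : ℝ) ^ δ < (D.card : ℝ) ^ k → ∀ w : ZMod p → ℂ, (∀ b, ‖w b‖ ≤ 1) →
          ‖∑ a ∈ (digitSet D k).image (fun a : ℕ => θ ^ a),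
              ∑ b ∈ (digitSet D k).image (fun a : ℕ => θ ^ a), w b * χ (a - b)‖ <
            (((digitSet D k).image (fun a : ℕ => θ ^ a)).card : ℝ) ^ (2 - τ) := by
  classical
  have : NeZero g := ⟨by omega⟩
  have hD0 : D.Nonempty := card_pos.1 (by omega)
  set c : ℝ := (D.card : ℝ) with hc
  have hc1 : (1 : ℝ) < c := by
    rw [hc]; exact_mod_cast (by omega : 1 < D.card)
  set L : ℝ := Real.log c with hL
  have hL0 : 0 < L := Real.log_pos hc1
  set E : ℕ := Finset.addEnergy D D with hE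
  have hE0 : 0 < E := by
    rw [hE]
    exact Finset.addEnergy_pos hD0 hD0
  obtain ⟨ε, hε0, K, hK0, hpar⟩ := param L (Real.log E) δ hL0 hδ0 hδ
  obtain ⟨τ, hτ, P, h⟩ := direct_prod ε ε hε0 hε0
  refine ⟨τ, hτ, P + g + 1 + ⌈Real.exp K⌉₊, ?_⟩
  intro p _ hp χ hχ θ k hkp hk w hw
  have hpp : p.Prime := Fact.out
  have hp1 : (1 : ℝ) < p := by exact_mod_cast hpp.one_lt
  have hp0 : (0 : ℝ) < p := by linarith
  have hKℓ : K ≤ Real.log p := by
    rw [Real.le_log_iff_exp_le hp0]
    refine (Nat.le_ceil _).trans ?_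
    exact_mod_cast (by omega : ⌈Real.exp K⌉₊ ≤ p)
  have hkL : δ * Real.log p < k * L := by
    have h1 := Real.log_lt_log (Real.rpow_pos_of_pos hp0 δ) hk
    rw [Real.log_rpow hp0, Real.log_pow] at h1
    exact h1
  obtain ⟨j, m, rfl, hj1, hjL, hm⟩ := hpar (Real.log p) hKℓ k hkL
  obtain ⟨h1, h2, h3⟩ := cards_pow θ D hD0 j m hkp
  have h4 := high_energy_pow θ D hD0 j m hkp
  have hcpow : ∀ n : ℕ, c ^ n = Real.exp (n * L) := by
    intro n
    rw [hL, mul_comm, Real.exp_mul, Real.exp_log (by linarith), Real.rpow_natCast]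
  have hX : (p : ℝ) ^ ε ≤ (lowPow θ D j).card := by
    rw [h1]
    push_cast
    rw [← hc, hcpow, Real.rpow_def_of_pos hp0]
    exact Real.exp_le_exp.2 (by rw [mul_comm]; exact hjL)
  have hY : (Finset.mulEnergy (highPow θ D j m) (highPow θ D j m) : ℝ) ≤
      (p : ℝ) ^ (-(1 / 2) - ε) * ((highPow θ D j m).card : ℝ) ^ 4 := by
    refine (Nat.cast_le.2 h4).trans ?_
    rw [h2]
    push_cast
    have hE1 : (0 : ℝ) < E := by exact_mod_cast hE0
    have e1 : (E : ℝ) ^ m = Real.exp (m * Real.log E) := by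
      rw [mul_comm, Real.exp_mul, Real.exp_log hE1, Real.rpow_natCast]
    have e2 : (3 : ℝ) = Real.exp (Real.log 3) := (Real.exp_log (by norm_num)).symm
    rw [e1, ← hc, hcpow, ← Real.exp_nat_mul, Real.rpow_def_of_pos hp0, ← Real.exp_add, e2,
      ← Real.exp_add]
    refine Real.exp_le_exp.2 ?_
    push_cast
    linarith
  have hXne : (lowPow θ D j).Nonempty := by
    rw [← card_pos, h1]
    exact Nat.pos_of_ne_zero (pow_ne_zero _ (by omega))
  have hYne : (highPow θ D j m).Nonempty := by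
    rw [← card_pos, h2]
    exact Nat.pos_of_ne_zero (pow_ne_zero _ (by omega))
  have hθ : θ ≠ 0 := by
    rintro rfl
    obtain ⟨d, hd⟩ := (tup D (j + m)).eq_empty_or_nonempty.resolve_left (by
      rw [← Finset.card_eq_zero, tup_card]
      exact pow_ne_zero _ (by omega))
    have h5 := hkp _ (mem_image_of_mem _ hd)
    have h6 : orderOf (0 : ZMod p) = 0 := by
      rw [orderOf_eq_zero_iff']
      intro n hn
      rw [zero_pow (by omega)]
      exact zero_ne_one
    omega
  have h5 := h p inferInstance (by omega) χ hχ (lowPow θ D j) (highPow θ D j m) hXne hYne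
    (fun h0 => by
      obtain ⟨d, _, hd⟩ := mem_image.1 h0
      exact pow_ne_zero _ hθ hd)
    (fun h0 => by
      obtain ⟨d, _, hd⟩ := mem_image.1 h0
      exact pow_ne_zero _ hθ hd) hX h3 hY w hw
  have hAp : lowPow θ D j * highPow θ D j m =
      (digitSet D (j + m)).image (fun a : ℕ => θ ^ a) := by
    rw [low_mul_high]
    unfold digitSet
    rw [Finset.image_image]
    rfl
  rw [hAp] at h5
  exact h5

end Pool.Agent.TH322.CS
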