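import Pool.Agent.TH322.CS.Core

/-! # Trilinear character sums over arbitrary sets -/

set_option autoImplicit false

namespace Pool.Agent.TH322.CS

open Finset

/-- the number of pairs with equal values is the sum of the squares of the sizes of the fibres -/
theorem sum_sq_fiber {ι κ : Type*} [Fintype κ] [DecidableEq κ] (s : Finset ι) (f : ι → κ) :
    ∑ u : κ, ((s.filter fun x => f x = u).card : ℝ) ^ 2 =
      (((s ×ˢ s).filter fun t => f t.1 = f t.2).card : ℝ) := by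
  classical
  have h1 : ((s ×ˢ s).filter fun t => f t.1 = f t.2).card =
      ∑ u : κ, (((s ×ˢ s).filter fun t => f t.1 = f t.2).filter fun t => f t.1 = u).card :=
    Finset.card_eq_sum_card_fiberwise fun _ _ => Finset.mem_coe.2 (Finset.mem_univ _)
  rw [h1]
  push_cast
  refine Finset.sum_congr rfl fun u _ => ?_
  have h2 : (((s ×ˢ s).filter fun t => f t.1 = f t.2).filter fun t => f t.1 = u) =
      (s.filter fun x => f x = u) ×ˢ (s.filter fun x => f x = u) := by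
    ext t
    simp only [mem_filter, mem_product]
    constructor
    · rintro ⟨⟨⟨h3, h4⟩, h5⟩, h6⟩
      exact ⟨⟨h3, h6⟩, h4, by rw [← h5, h6]⟩
    · rintro ⟨⟨h3, h4⟩, h5, h6⟩
      exact ⟨⟨⟨h3, h5⟩, by rw [h4, h6]⟩, h4⟩
  rw [h2, card_product]
  push_cast
  ring

/-- grouping a sum over `s` by the values of `f` -/
theorem sum_fiber {ι κ : Type*} [Fintype κ] [DecidableEq κ] (s : Finset ι) (f : ι → κ)
    (F : κ → ℝ) :
    ∑ x ∈ s, F (f x) = ∑ u : κ, ((s.filter fun x => f x = u).card : ℝ) * F u := by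
  classical
  rw [← Finset.sum_fiberwise_of_maps_to (s := s) (t := Finset.univ) (g := f)
    (fun _ _ => Finset.mem_univ _)]
  refine Finset.sum_congr rfl fun u _ => ?_
  rw [Finset.sum_congr rfl (fun x hx => by rw [(mem_filter.1 hx).2] :
    ∀ x ∈ s.filter (fun x => f x = u), F (f x) = F u), Finset.sum_const, nsmul_eq_mul]

theorem sum_card_fiber {ι κ : Type*} [Fintype κ] [DecidableEq κ] (s : Finset ι) (f : ι → κ) :
    ∑ u : κ, ((s.filter fun x => f x = u).card : ℝ) = s.card := by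
  have := sum_fiber s f (fun _ => 1)
  simp only [mul_one] at this
  rw [← this]
  simp

/-- the core estimate for a function `f` on a finite set `s` whose values collide rarely -/
theorem core_fun (ε η : ℝ) (hε : 0 < ε) (hη : 0 < η) :
    ∃ τ : ℝ, 0 < τ ∧ ∃ P : ℕ, ∀ p : ℕ, ∀ _ : Fact p.Prime, P ≤ p →
      ∀ χ : DirichletCharacter ℂ p, χ ≠ 1 → ∀ W : Finset (ZMod p), (p : ℝ) ^ ε ≤ W.card →
        ∀ c : ZMod p → ℂ, (∀ w, ‖c w‖ ≤ 1) → ∀ (ι : Type) (s : Finset ι) (f : ι → ZMod p),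
          (((s ×ˢ s).filter fun t => f t.1 = f t.2).card : ℝ) ≤
            (p : ℝ) ^ (-(1 / 2) - η) * (s.card : ℝ) ^ 2 →
          ∑ x ∈ s, ‖∑ w ∈ W, c w * χ (f x + w)‖ ≤
            (p : ℝ) ^ (-τ) * ((s.card : ℝ) * W.card) := by
  obtain ⟨τ, hτ, P, h⟩ := core ε η hε hη
  refine ⟨τ, hτ, P, ?_⟩
  intro p _ hp χ hχ W hW c hc ι s f hE
  have h1 := h p inferInstance hp χ hχ W hW c hc
    (fun u => ((s.filter fun x => f x = u).card : ℝ)) (fun u => Nat.cast_nonneg _)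
  rw [sum_sq_fiber, sum_card_fiber] at h1
  rw [sum_fiber s f (fun u => ‖∑ w ∈ W, c w * χ (u + w)‖)]
  exact h1 hE

open scoped Pointwise Combinatorics.Additive

/-- Trilinear sums `∑ c(x) g(y,b) χ(x+y-b)`: power saving as soon as `X` has `p^ε` elements and
the additive energy of `Y` and `B` is at most `p^(-1/2-η) |Y|²|B|²`. -/
theorem tri_add (ε η : ℝ) (hε : 0 < ε) (hη : 0 < η) :
    ∃ τ : ℝ, 0 < τ ∧ ∃ P : ℕ, ∀ p : ℕ, ∀ _ : Fact p.Prime, P ≤ p →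
      ∀ χ : DirichletCharacter ℂ p, χ ≠ 1 → ∀ X Y B : Finset (ZMod p),
        (p : ℝ) ^ ε ≤ X.card →
        (Finset.addEnergy Y B : ℝ) ≤ (p : ℝ) ^ (-(1 / 2) - η) * ((Y.card : ℝ) * B.card) ^ 2 →
        ∀ (z : ZMod p) (c : ZMod p → ℂ) (g : ZMod p → ZMod p → ℂ), (∀ x, ‖c x‖ ≤ 1) →
          (∀ y b, ‖g y b‖ ≤ 1) →
          ‖∑ x ∈ X, ∑ y ∈ Y, ∑ b ∈ B, c x * g y b * χ (x + y - (z + b))‖ ≤
            (p : ℝ) ^ (-τ) * ((X.card : ℝ) * Y.card * B.card) := by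
  obtain ⟨τ, hτ, P, h⟩ := core_fun ε η hε hη
  refine ⟨τ, hτ, P, ?_⟩
  intro p _ hp χ hχ X Y B hX hE z c g hc hg
  have h1 := h p inferInstance hp χ hχ X hX c hc (ZMod p × ZMod p) (Y ×ˢ B)
    (fun t => t.1 - (z + t.2))
  have hcard : (((Y ×ˢ B) ×ˢ (Y ×ˢ B)).filter fun t =>
      t.1.1 - (z + t.1.2) = t.2.1 - (z + t.2.2)).card =
      Finset.addEnergy Y B := by
    unfold Finset.addEnergy
    refine Finset.card_nbij' (fun t => ((t.1.1, t.2.1), (t.2.2, t.1.2)))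
      (fun t => ((t.1.1, t.2.2), (t.1.2, t.2.1))) ?_ ?_ ?_ ?_
    · intro t ht
      simp only [coe_filter, mem_product, Set.mem_ofPred_eq] at ht ⊢
      obtain ⟨⟨⟨h2, h3⟩, h4, h5⟩, h6⟩ := ht
      refine ⟨⟨⟨h2, h4⟩, h5, h3⟩, ?_⟩
      linear_combination h6
    · intro t ht
      simp only [coe_filter, mem_product, Set.mem_ofPred_eq] at ht ⊢
      obtain ⟨⟨⟨h2, h3⟩, h4, h5⟩, h6⟩ := ht
      refine ⟨⟨⟨h2, h5⟩, h3, h4⟩, ?_⟩
      linear_combination h6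
    · intro t _
      rfl
    · intro t _
      rfl
  rw [hcard, card_product] at h1
  push_cast at h1
  have h2 := h1 hE
  have h3 : ∑ x ∈ X, ∑ y ∈ Y, ∑ b ∈ B, c x * g y b * χ (x + y - (z + b)) =
      ∑ t ∈ Y ×ˢ B, g t.1 t.2 * ∑ x ∈ X, c x * χ (t.1 - (z + t.2) + x) := by
    rw [Finset.sum_product]
    rw [Finset.sum_comm]
    refine Finset.sum_congr rfl fun y _ => ?_
    rw [Finset.sum_comm]
    refine Finset.sum_congr rfl fun b _ => ?_
    rw [Finset.mul_sum]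
    refine Finset.sum_congr rfl fun x _ => ?_
    rw [show x + y - (z + b) = y - (z + b) + x by ring]
    ring
  rw [h3]
  refine (norm_sum_le _ _).trans ?_
  refine (Finset.sum_le_sum (g := fun t : ZMod p × ZMod p =>
    ‖∑ x ∈ X, c x * χ (t.1 - (z + t.2) + x)‖) fun t _ => ?_).trans (h2.trans (le_of_eq ?_))
  · rw [norm_mul]
    exact mul_le_of_le_one_left (norm_nonneg _) (hg _ _)
  · ring

/-- Trilinear sums `∑ c(x) g(y,b) χ(xy-b)`: power saving as soon as `X` has `p^ε` elements and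
the multiplicative energy of `Y` and `B` is at most `p^(-1/2-η) |Y|²|B|²`. -/
theorem tri_mul (ε η : ℝ) (hε : 0 < ε) (hη : 0 < η) :
    ∃ τ : ℝ, 0 < τ ∧ ∃ P : ℕ, ∀ p : ℕ, ∀ _ : Fact p.Prime, P ≤ p →
      ∀ χ : DirichletCharacter ℂ p, χ ≠ 1 → ∀ X Y B : Finset (ZMod p), (0 : ZMod p) ∉ Y →
        (p : ℝ) ^ ε ≤ X.card →
        (Finset.mulEnergy Y B : ℝ) ≤ (p : ℝ) ^ (-(1 / 2) - η) * ((Y.card : ℝ) * B.card) ^ 2 →
        ∀ z : ZMod p, z ≠ 0 → ∀ (c : ZMod p → ℂ) (g : ZMod p → ZMod p → ℂ), (∀ x, ‖c x‖ ≤ 1) →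
          (∀ y b, ‖g y b‖ ≤ 1) →
          ‖∑ x ∈ X, ∑ y ∈ Y, ∑ b ∈ B, c x * g y b * χ (x * y - z * b)‖ ≤
            (p : ℝ) ^ (-τ) * ((X.card : ℝ) * Y.card * B.card) := by
  obtain ⟨τ, hτ, P, h⟩ := core_fun ε η hε hη
  refine ⟨τ, hτ, P, ?_⟩
  intro p _ hp χ hχ X Y B hY hX hE z hz c g hc hg
  have h1 := h p inferInstance hp χ hχ X hX c hc (ZMod p × ZMod p) (Y ×ˢ B)
    (fun t => -(z * t.2 * t.1⁻¹))
  have hcard : (((Y ×ˢ B) ×ˢ (Y ×ˢ B)).filter fun t =>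
      -(z * t.1.2 * t.1.1⁻¹) = -(z * t.2.2 * t.2.1⁻¹)).card ≤ Finset.mulEnergy Y B := by
    unfold Finset.mulEnergy
    refine Finset.card_le_card_of_injOn (fun t => ((t.1.1, t.2.1), (t.2.2, t.1.2))) ?_ ?_
    · intro t ht
      simp only [coe_filter, mem_product, Set.mem_ofPred_eq] at ht ⊢
      obtain ⟨⟨⟨h2, h3⟩, h4, h5⟩, h6⟩ := ht
      refine ⟨⟨⟨h2, h4⟩, h5, h3⟩, ?_⟩
      have h7 : t.1.1 ≠ 0 := fun h8 => hY (h8 ▸ h2)
      have h8 : t.2.1 ≠ 0 := fun h8 => hY (h8 ▸ h4)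
      field_simp at h6
      have h9 : z * (t.1.1 * t.2.2 - t.2.1 * t.1.2) = 0 := by linear_combination z * h6
      exact sub_eq_zero.1 ((mul_eq_zero.1 h9).resolve_left hz)
    · intro t _ t' _ htt
      simp only [Prod.mk.injEq] at htt
      obtain ⟨⟨h2, h3⟩, h4, h5⟩ := htt
      exact Prod.ext (Prod.ext h2 h5) (Prod.ext h3 h4)
  rw [card_product] at h1
  push_cast at h1
  have h2 := h1 ((Nat.cast_le.2 hcard).trans hE)
  have h3 : ∑ x ∈ X, ∑ y ∈ Y, ∑ b ∈ B, c x * g y b * χ (x * y - z * b) =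
      ∑ t ∈ Y ×ˢ B, (g t.1 t.2 * χ t.1) * ∑ x ∈ X, c x * χ (-(z * t.2 * t.1⁻¹) + x) := by
    rw [Finset.sum_product]
    rw [Finset.sum_comm]
    refine Finset.sum_congr rfl fun y hy => ?_
    rw [Finset.sum_comm]
    refine Finset.sum_congr rfl fun b _ => ?_
    rw [Finset.mul_sum]
    refine Finset.sum_congr rfl fun x _ => ?_
    have h7 : y ≠ 0 := fun h8 => hY (h8 ▸ hy)
    have h8 : x * y - z * b = y * (-(z * b * y⁻¹) + x) := by
      field_simp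
      ring
    rw [h8, map_mul]
    ring
  rw [h3]
  refine (norm_sum_le _ _).trans ?_
  refine (Finset.sum_le_sum (g := fun t : ZMod p × ZMod p =>
    ‖∑ x ∈ X, c x * χ (-(z * t.2 * t.1⁻¹) + x)‖) fun t _ => ?_).trans (h2.trans (le_of_eq ?_))
  · rw [norm_mul, norm_mul]
    refine mul_le_of_le_one_left (norm_nonneg _) ?_
    exact mul_le_one₀ (hg _ _) (norm_nonneg _) (χ.norm_le_one _)
  · ring

end Pool.Agent.TH322.CS
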